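import Pool.Agent.TTC.StmtsG
import Pool.Agent.Helper1_TTC.CR6

set_option autoImplicit false

namespace Pool.Agent.TTC.H15Cr7

open Polynomial Pool.Agent.TTC Pool.Agent.TTC.H1

section alg

variable {k : Type} [Field k] [IsAlgClosed k] (a : Fin 7 → k)

theorem nd6 (h0 : a 0 ≠ 0) : (sext a).natDegree = 6 :=
  le_antisymm (deg6 a) (le_natDegree_of_ne_zero (by rw [coeff6]; exact h0))

theorem card6 (h0 : a 0 ≠ 0) : Multiset.card (sext a).roots = 6 := by
  have h1 : (sext a).Splits := IsAlgClosed.splits _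
  rw [← h1.natDegree_eq_card_roots, nd6 a h0]

theorem r6_eq (h6 : (6 : k) ≠ 0) (h0 : a 0 ≠ 0) (m : ℕ) :
    r6 m a = (a 0 * 6) ^ 6 * ((derivative (sext a)).roots.map (fun θ =>
      (derivative (derivative (sext a))).eval θ + (m : k) * (sext a).eval θ)).prod := by
  have hc5 : (derivative (sext a)).coeff 5 = a 0 * 6 := by
    rw [coeff_derivative, coeff6]
    norm_num
  have hne : a 0 * 6 ≠ 0 := mul_ne_zero h0 h6
  have hd : (derivative (sext a)).natDegree ≤ 5 := by
    refine le_trans (natDegree_derivative_le _) ?_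
    have := deg6 a
    omega
  have hd5 : (derivative (sext a)).natDegree = 5 :=
    le_antisymm hd (le_natDegree_of_ne_zero (by rw [hc5]; exact hne))
  have hlead : (derivative (sext a)).leadingCoeff = a 0 * 6 := by
    rw [leadingCoeff, hd5, hc5]
  have hsp : (derivative (sext a)).Splits := IsAlgClosed.splits _
  have hg : (derivative (derivative (sext a)) + C (m : k) * sext a).natDegree ≤ 6 := by
    refine (natDegree_add_le _ _).trans (max_le ?_ ?_)
    · refine (natDegree_derivative_le _).trans ?_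
      omega
    · exact (natDegree_C_mul_le _ _).trans (deg6 a)
  have hres := resultant_eq_prod_eval (derivative (sext a))
    (derivative (derivative (sext a)) + C (m : k) * sext a) 6 hg hsp
  rw [hd5, hlead] at hres
  have h1 : r6 m a = resultant (derivative (sext a))
    (derivative (derivative (sext a)) + C (m : k) * sext a) 5 6 := rfl
  rw [h1, hres]
  congr 2
  refine Multiset.map_congr rfl fun θ _ => ?_
  simp

theorem count_iff (h6 : (6 : k) ≠ 0) (h0 : a 0 ≠ 0) [DecidableEq k] :
    3 ≤ Multiset.count 0 ((derivative (sext a)).roots.map (fun θ => (sext a).eval θ)) ↔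
      (crit a).coeff 0 = 0 ∧ (crit a).coeff 1 = 0 ∧ (crit a).coeff 2 = 0 := by
  obtain ⟨hcrit, -⟩ := crit_eq k a h6 h0
  have hc : (a 0 * 6) ^ 6 ≠ 0 := pow_ne_zero _ (mul_ne_zero h0 h6)
  have hr : (crit a).roots = (derivative (sext a)).roots.map (fun θ => (sext a).eval θ) := by
    rw [hcrit, roots_C_mul _ hc, roots_multiset_prod_X_sub_C]
  have hne : crit a ≠ 0 := by
    rw [hcrit]
    refine mul_ne_zero (C_ne_zero.2 hc) ?_
    exact (monic_multiset_prod_of_monic _ _ (fun v _ => monic_X_sub_C v)).ne_zero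
  rw [← hr, count_roots, le_rootMultiplicity_iff hne, C_0, sub_zero, X_pow_dvd_iff]
  constructor
  · intro h
    exact ⟨h 0 (by norm_num), h 1 (by norm_num), h 2 (by norm_num)⟩
  · rintro ⟨e0, e1, e2⟩ d hd
    interval_cases d
    · exact e0
    · exact e1
    · exact e2

theorem two_le {F : k[X]} (hF : F ≠ 0) {θ : k} (h1 : F.eval θ = 0)
    (h2 : (derivative F).eval θ = 0) [DecidableEq k] : 2 ≤ Multiset.count θ F.roots := by
  rw [count_roots]
  exact (one_lt_rootMultiplicity_iff_isRoot hF).2 ⟨h1, h2⟩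

theorem le_two {F : k[X]} [DecidableEq k] (h : ∀ z : k, ¬ (F.eval z = 0 ∧
    (derivative F).eval z = 0 ∧ (derivative (derivative F)).eval z = 0)) (θ : k) :
    Multiset.count θ F.roots ≤ 2 := by
  rw [count_roots]
  by_contra hcon
  push Not at hcon
  apply h θ
  have h0 := isRoot_iterate_derivative_of_lt_rootMultiplicity (p := F) (t := θ) (n := 0) (by omega)
  have h1 := isRoot_iterate_derivative_of_lt_rootMultiplicity (p := F) (t := θ) (n := 1) (by omega)
  have h2 := isRoot_iterate_derivative_of_lt_rootMultiplicity (p := F) (t := θ) (n := 2) (by omega)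
  exact ⟨h0, h1, h2⟩

theorem part1 (j m : ℕ) (h6 : (6 : k) ≠ 0) (h0 : a 0 ≠ 0) (hd : d6 a = 0) (he : e7 j m a ≠ 0) :
    Dns (sext a) := by
  classical
  obtain ⟨hcrit, hF'0⟩ := crit_eq k a h6 h0
  have hF0 : sext a ≠ 0 := by
    intro h
    have h1 := coeff6 a
    rw [h, coeff_zero] at h1
    exact h0 h1.symm
  have hr6 : r6 m a ≠ 0 := by
    intro h
    apply he
    unfold e7
    rw [h, mul_zero]
  have hcc : (crit a).coeff 1 + (j : k) * (crit a).coeff 2 ≠ 0 := by
    intro h
    apply he
    unfold e7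
    rw [h, mul_zero, zero_mul]
  have hi : ∀ z : k, ¬ ((sext a).eval z = 0 ∧ (derivative (sext a)).eval z = 0 ∧
      (derivative (derivative (sext a))).eval z = 0) := by
    rintro z ⟨h1, h2, h3⟩
    apply hr6
    rw [r6_eq a h6 h0]
    have h4 : z ∈ (derivative (sext a)).roots := (mem_roots hF'0).2 h2
    have h5 : (0 : k) ∈ (derivative (sext a)).roots.map (fun θ =>
        (derivative (derivative (sext a))).eval θ + (m : k) * (sext a).eval θ) :=
      Multiset.mem_map.2 ⟨z, h4, by rw [h1, h3, mul_zero, add_zero]⟩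
    rw [Multiset.prod_eq_zero h5, mul_zero]
  refine ⟨hi, ((cr6 k a h6 h0).1).1 hd, ?_⟩
  by_contra hcon
  push Not at hcon
  have hcount : ¬ 3 ≤ Multiset.count 0
      ((derivative (sext a)).roots.map (fun θ => (sext a).eval θ)) := by
    rw [count_iff a h6 h0]
    rintro ⟨-, e1, e2⟩
    apply hcc
    rw [e1, e2, mul_zero, add_zero]
  rw [Multiset.count_map] at hcount
  have hsub : (sext a).roots.toFinset ⊆
      ((derivative (sext a)).roots.filter (fun θ => 0 = (sext a).eval θ)).toFinset := by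
    intro z hz
    rw [Multiset.mem_toFinset, mem_roots hF0] at hz
    rw [Multiset.mem_toFinset, Multiset.mem_filter, mem_roots hF'0]
    exact ⟨hcon z hz, hz.symm⟩
  have h1 := Finset.card_le_card hsub
  have h2 := Multiset.toFinset_card_le
    ((derivative (sext a)).roots.filter (fun θ => 0 = (sext a).eval θ))
  have h3 := Multiset.toFinset_sum_count_eq (sext a).roots
  rw [card6 a h0] at h3
  have h4 : ∑ z ∈ (sext a).roots.toFinset, Multiset.count z (sext a).roots ≤
      ∑ z ∈ (sext a).roots.toFinset, 2 := Finset.sum_le_sum fun z _ => le_two hi z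
  rw [Finset.sum_const, smul_eq_mul, h3] at h4
  omega

end alg

theorem part2 (a : Fin 7 → ℂ) (h0 : a 0 ≠ 0) (hD : Dns (sext a)) :
    d6 a = 0 ∧ ∃ j ≤ 1, ∃ m ≤ 5, e7 j m a ≠ 0 := by
  classical
  have h6 : (6 : ℂ) ≠ 0 := by norm_num
  obtain ⟨hi, hii, z0, hz0, hz0'⟩ := hD
  obtain ⟨hcrit, hF'0⟩ := crit_eq ℂ a h6 h0
  have hF0 : sext a ≠ 0 := by
    intro h
    have h1 := coeff6 a
    rw [h, coeff_zero] at h1
    exact h0 h1.symm
  have hd : d6 a = 0 := ((cr6 ℂ a h6 h0).1).2 hii
  refine ⟨hd, ?_⟩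
  -- the number of double roots
  have hcount : ¬ 3 ≤ Multiset.count 0
      ((derivative (sext a)).roots.map (fun θ => (sext a).eval θ)) := by
    rw [Multiset.count_map]
    intro h3
    have hnd : ((derivative (sext a)).roots.filter (fun θ => 0 = (sext a).eval θ)).Nodup := by
      rw [Multiset.nodup_iff_count_le_one]
      intro θ
      rw [Multiset.count_filter]
      split_ifs with hθ
      · by_contra hcon
        push Not at hcon
        rw [count_roots] at hcon
        have h4 := (one_lt_rootMultiplicity_iff_isRoot hF'0).1 hcon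
        exact hi θ ⟨hθ.symm, h4.1, h4.2⟩
      · exact Nat.zero_le _
    obtain ⟨D, hDdef⟩ : ∃ D, D =
      ((derivative (sext a)).roots.filter (fun θ => 0 = (sext a).eval θ)).toFinset := ⟨_, rfl⟩
    have hcard : D.card =
        Multiset.card ((derivative (sext a)).roots.filter (fun θ => 0 = (sext a).eval θ)) := by
      rw [hDdef]
      exact Multiset.toFinset_card_of_nodup hnd
    rw [← hcard] at h3
    have hmD : ∀ θ ∈ D, (sext a).eval θ = 0 ∧ (derivative (sext a)).eval θ = 0 := by
      intro θ hθ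
      rw [hDdef, Multiset.mem_toFinset, Multiset.mem_filter, mem_roots hF'0] at hθ
      exact ⟨hθ.2.symm, hθ.1⟩
    have hz0D : z0 ∉ D := fun h => hz0' (hmD z0 h).2
    have hsub : insert z0 D ⊆ (sext a).roots.toFinset := by
      intro z hz
      rw [Multiset.mem_toFinset, mem_roots hF0]
      rcases Finset.mem_insert.1 hz with rfl | hz
      · exact hz0
      · exact (hmD z hz).1
    have h4 := Multiset.toFinset_sum_count_eq (sext a).roots
    rw [card6 a h0] at h4
    have h5 : ∑ z ∈ insert z0 D, Multiset.count z (sext a).roots ≤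
        ∑ z ∈ (sext a).roots.toFinset, Multiset.count z (sext a).roots :=
      Finset.sum_le_sum_of_subset hsub
    rw [h4, Finset.sum_insert hz0D] at h5
    have h6' : ∑ z ∈ D, 2 ≤ ∑ z ∈ D, Multiset.count z (sext a).roots :=
      Finset.sum_le_sum fun z hz => two_le hF0 (hmD z hz).1 (hmD z hz).2
    rw [Finset.sum_const, smul_eq_mul] at h6'
    have h7 : 1 ≤ Multiset.count z0 (sext a).roots :=
      Multiset.one_le_count_iff_mem.2 ((mem_roots hF0).2 hz0)
    omega
  have hj : ∃ j : ℕ, j ≤ 1 ∧ (crit a).coeff 1 + (j : ℂ) * (crit a).coeff 2 ≠ 0 := by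
    by_cases h1 : (crit a).coeff 1 = 0
    · refine ⟨1, le_rfl, ?_⟩
      intro h2
      rw [h1, zero_add, Nat.cast_one, one_mul] at h2
      exact hcount ((count_iff a h6 h0).2 ⟨hd, h1, h2⟩)
    · refine ⟨0, Nat.zero_le _, ?_⟩
      rw [Nat.cast_zero, zero_mul, add_zero]
      exact h1
  obtain ⟨j, hj1, hj2⟩ := hj
  -- the choice of m
  have hm : ∃ m ≤ 5, r6 m a ≠ 0 := by
    have hcard5 : Multiset.card (derivative (sext a)).roots ≤ 5 := by
      refine (card_roots' _).trans ((natDegree_derivative_le _).trans ?_)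
      have := deg6 a
      omega
    obtain ⟨Bad, hBad⟩ : ∃ Bad : ℂ → Finset ℕ, ∀ θ, Bad θ = (Finset.range 6).filter (fun m : ℕ =>
      (derivative (derivative (sext a))).eval θ + (m : ℂ) * (sext a).eval θ = 0) :=
      ⟨_, fun _ => rfl⟩
    have hB1 : ∀ θ ∈ (derivative (sext a)).roots.toFinset, (Bad θ).card ≤ 1 := by
      intro θ hθ
      rw [Multiset.mem_toFinset, mem_roots hF'0] at hθ
      rw [Finset.card_le_one]
      intro m hm m' hm'
      rw [hBad, Finset.mem_filter] at hm hm'
      by_cases hF : (sext a).eval θ = 0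
      · exfalso
        have h1 := hm.2
        rw [hF, mul_zero, add_zero] at h1
        exact hi θ ⟨hF, hθ, h1⟩
      · have h1 : (m : ℂ) * (sext a).eval θ = (m' : ℂ) * (sext a).eval θ := by
          linear_combination hm.2 - hm'.2
        exact_mod_cast mul_right_cancel₀ hF h1
    have hU : ((derivative (sext a)).roots.toFinset.biUnion Bad).card < (Finset.range 6).card := by
      rw [Finset.card_range]
      refine lt_of_le_of_lt (Finset.card_biUnion_le_card_mul _ _ 1 hB1) ?_
      have := Multiset.toFinset_card_le (derivative (sext a)).roots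
      omega
    obtain ⟨m, hm1, hm2⟩ := Finset.exists_mem_notMem_of_card_lt_card hU
    rw [Finset.mem_range] at hm1
    refine ⟨m, by omega, ?_⟩
    rw [r6_eq a h6 h0]
    refine mul_ne_zero (pow_ne_zero _ (mul_ne_zero h0 h6)) ?_
    intro h
    obtain ⟨θ, hθ, h1⟩ := Multiset.mem_map.1 (Multiset.prod_eq_zero_iff.1 h)
    apply hm2
    refine Finset.mem_biUnion.2 ⟨θ, Multiset.mem_toFinset.2 hθ, ?_⟩
    rw [hBad, Finset.mem_filter, Finset.mem_range]
    exact ⟨hm1, h1⟩
  obtain ⟨m, hm1, hm2⟩ := hm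
  exact ⟨j, hj1, m, hm1, mul_ne_zero (mul_ne_zero (mul_ne_zero h6 h0) hj2) hm2⟩

theorem cr7 : Cr7Stmt :=
  ⟨fun k _ _ a j m h6 h0 hd he => part1 a j m h6 h0 hd he, fun a h0 hD => part2 a h0 hD⟩

end Pool.Agent.TTC.H15Cr7
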