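import Pool.Agent.TTC.StmtsE

set_option autoImplicit false

namespace Pool.Agent.TTC.H15Dir

open Polynomial Pool.Agent.TTC

variable {m : ℕ}

/-- direction vector -/
noncomputable def dv (i₀ : Fin (m + 1)) (a : Fin m → ℂ) : Fin (m + 1) → ℂ :=
  i₀.insertNth (α := fun _ => ℂ) 1 a

lemma sub_X (i₀ : Fin (m + 1)) (a : Fin m → ℕ) (i : Fin (m + 1)) :
    (sub i₀ a (MvPolynomial.X i : MvPolynomial (Fin (m + 1)) ℂ)).natDegree ≤ 1 ∧
    (sub i₀ a (MvPolynomial.X i : MvPolynomial (Fin (m + 1)) ℂ)).coeff 1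
      = MvPolynomial.C (dv i₀ (fun j => (a j : ℂ)) i) := by
  rw [sub, MvPolynomial.aeval_X]
  rcases Fin.eq_self_or_eq_succAbove i₀ i with h | ⟨j, h⟩
  · subst h
    rw [pt, dv, Fin.insertNth_apply_same, Fin.insertNth_apply_same]
    refine ⟨Polynomial.natDegree_X_le, ?_⟩
    rw [Polynomial.coeff_X_one, map_one]
  · subst h
    rw [pt, dv, Fin.insertNth_apply_succAbove, Fin.insertNth_apply_succAbove]
    have e : ((a j : ℕ) : (MvPolynomial (Fin m) ℂ)[X]) = C ((a j : ℕ) : MvPolynomial (Fin m) ℂ) := by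
      simp
    rw [e]
    refine ⟨?_, ?_⟩
    · refine (Polynomial.natDegree_add_le _ _).trans ?_
      rw [Polynomial.natDegree_C]
      exact max_le (Nat.zero_le _)
        ((Polynomial.natDegree_C_mul_le _ _).trans Polynomial.natDegree_X_le)
    · rw [Polynomial.coeff_add, Polynomial.coeff_C_mul, Polynomial.coeff_X_one, mul_one,
        Polynomial.coeff_C_ne_zero one_ne_zero, zero_add, map_natCast]

lemma sub_mono (i₀ : Fin (m + 1)) (a : Fin m → ℕ) (n : Fin (m + 1) →₀ ℕ) :
    (sub i₀ a (MvPolynomial.monomial n (1 : ℂ))).natDegree ≤ n.degree ∧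
    (sub i₀ a (MvPolynomial.monomial n (1 : ℂ))).coeff n.degree
      = MvPolynomial.C (MvPolynomial.eval (dv i₀ (fun j => (a j : ℂ)))
        (MvPolynomial.monomial n (1 : ℂ))) := by
  induction n using Finsupp.induction_linear with
  | zero =>
    have e : (MvPolynomial.monomial 0 (1 : ℂ) : MvPolynomial (Fin (m + 1)) ℂ) = 1 := rfl
    rw [e, map_one, map_one, map_one]
    simp
  | add f g hf hg =>
    have e : (MvPolynomial.monomial (f + g) (1 : ℂ) : MvPolynomial (Fin (m + 1)) ℂ)
        = MvPolynomial.monomial f 1 * MvPolynomial.monomial g 1 := by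
      rw [MvPolynomial.monomial_mul, one_mul]
    have ed : (f + g).degree = f.degree + g.degree := map_add _ _ _
    rw [e, map_mul, map_mul, ed, map_mul]
    refine ⟨(Polynomial.natDegree_mul_le).trans (add_le_add hf.1 hg.1), ?_⟩
    rw [Polynomial.coeff_mul_add_eq_of_natDegree_le hf.1 hg.1, hf.2, hg.2]
  | single i k =>
    have e : (MvPolynomial.monomial (Finsupp.single i k) (1 : ℂ) : MvPolynomial (Fin (m + 1)) ℂ)
        = MvPolynomial.X i ^ k := (MvPolynomial.X_pow_eq_monomial).symm
    have ed : (Finsupp.single i k).degree = k * 1 := by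
      rw [Finsupp.degree_single, mul_one]
    obtain ⟨h1, h2⟩ := sub_X i₀ a i
    rw [e, map_pow, ed, map_pow, map_pow, MvPolynomial.eval_X]
    refine ⟨Polynomial.natDegree_pow_le_of_le k h1, ?_⟩
    rw [Polynomial.coeff_pow_of_natDegree_le h1, h2]

lemma sub_hom (i₀ : Fin (m + 1)) (a : Fin m → ℕ) (d : ℕ) (H : MvPolynomial (Fin (m + 1)) ℂ)
    (hH : ∀ n ∈ H.support, n.degree = d) :
    (sub i₀ a H).natDegree ≤ d ∧
    (sub i₀ a H).coeff d = MvPolynomial.C (MvPolynomial.eval (dv i₀ (fun j => (a j : ℂ))) H) := by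
  have e : H = ∑ n ∈ H.support, (H.coeff n) • MvPolynomial.monomial n (1 : ℂ) := by
    conv_lhs => rw [← MvPolynomial.support_sum_monomial_coeff H]
    refine Finset.sum_congr rfl fun n _ => ?_
    rw [MvPolynomial.smul_monomial, smul_eq_mul, mul_one]
  have key : ∀ s : Finset (Fin (m + 1) →₀ ℕ), (∀ n ∈ s, n.degree = d) →
      (sub i₀ a (∑ n ∈ s, (H.coeff n) • MvPolynomial.monomial n (1 : ℂ))).natDegree ≤ d ∧
      (sub i₀ a (∑ n ∈ s, (H.coeff n) • MvPolynomial.monomial n (1 : ℂ))).coeff d
        = MvPolynomial.C (MvPolynomial.eval (dv i₀ (fun j => (a j : ℂ)))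
          (∑ n ∈ s, (H.coeff n) • MvPolynomial.monomial n (1 : ℂ))) := by
    intro s hs
    refine ⟨?_, ?_⟩
    · rw [map_sum]
      refine Polynomial.natDegree_sum_le_of_forall_le _ _ fun n hn => ?_
      rw [map_smul]
      refine (Polynomial.natDegree_smul_le _ _).trans ?_
      have := (sub_mono i₀ a n).1
      rwa [hs n hn] at this
    · rw [map_sum, Polynomial.finsetSum_coeff, map_sum, map_sum]
      refine Finset.sum_congr rfl fun n hn => ?_
      have := (sub_mono i₀ a n).2
      rw [hs n hn] at this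
      rw [map_smul, Polynomial.coeff_smul, this, MvPolynomial.smul_eval, MvPolynomial.smul_eq_C_mul,
        ← MvPolynomial.C_mul]
  have := key H.support hH
  rwa [← e] at this

lemma eval_smul_hom (d : ℕ) (H : MvPolynomial (Fin (m + 1)) ℂ)
    (hH : ∀ n ∈ H.support, n.degree = d) (c : ℂ) (x : Fin (m + 1) → ℂ) :
    MvPolynomial.eval (fun i => c * x i) H = c ^ d * MvPolynomial.eval x H := by
  rw [MvPolynomial.eval_eq', MvPolynomial.eval_eq', Finset.mul_sum]
  refine Finset.sum_congr rfl fun n hn => ?_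
  have h1 : ∏ i, (c * x i) ^ n i = c ^ d * ∏ i, x i ^ n i := by
    rw [← hH n hn, Finsupp.degree_eq_sum, ← Finset.prod_pow_eq_pow_sum, ← Finset.prod_mul_distrib]
    refine Finset.prod_congr rfl fun i _ => ?_
    rw [mul_pow]
  rw [h1]
  ring

lemma exists_dir (i₀ : Fin (m + 1)) (N : ℕ) (H : MvPolynomial (Fin (m + 1)) ℂ)
    (hH : ∀ n ∈ H.support, n.degree = N) (h0 : H ≠ 0) :
    ∃ a : Fin m → ℕ, (∀ j, a j ≤ N) ∧
      MvPolynomial.eval (dv i₀ (fun j => (a j : ℂ))) H ≠ 0 := by
  classical
  set g : Fin (m + 1) → MvPolynomial (Fin m) ℂ :=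
    i₀.insertNth (α := fun _ => MvPolynomial (Fin m) ℂ) 1 MvPolynomial.X with hg
  set q : MvPolynomial (Fin m) ℂ := MvPolynomial.aeval g H with hq
  have hev : ∀ a : Fin m → ℂ, MvPolynomial.eval a q = MvPolynomial.eval (dv i₀ a) H := by
    intro a
    have h1 : (MvPolynomial.aeval a).comp (MvPolynomial.aeval g)
        = (MvPolynomial.aeval (dv i₀ a) : MvPolynomial (Fin (m + 1)) ℂ →ₐ[ℂ] ℂ) := by
      refine MvPolynomial.algHom_ext fun i => ?_
      rw [AlgHom.comp_apply, MvPolynomial.aeval_X, MvPolynomial.aeval_X]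
      rcases Fin.eq_self_or_eq_succAbove i₀ i with h | ⟨j, h⟩
      · subst h
        rw [hg, dv, Fin.insertNth_apply_same, Fin.insertNth_apply_same, map_one]
      · subst h
        rw [hg, dv, Fin.insertNth_apply_succAbove, Fin.insertNth_apply_succAbove,
          MvPolynomial.aeval_X]
    have h2 := DFunLike.congr_fun h1 H
    rw [AlgHom.comp_apply, MvPolynomial.aeval_eq_eval, MvPolynomial.aeval_eq_eval] at h2
    exact h2
  have hq0 : q ≠ 0 := by
    intro hq0
    have h1 : MvPolynomial.X i₀ * H = 0 := by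
      refine MvPolynomial.funext fun t => ?_
      rw [map_mul, MvPolynomial.eval_X, map_zero]
      by_cases ht : t i₀ = 0
      · rw [ht, zero_mul]
      · have h2 : t = fun i => t i₀ * dv i₀ (fun j => t (i₀.succAbove j) / t i₀) i := by
          funext i
          rcases Fin.eq_self_or_eq_succAbove i₀ i with h | ⟨j, h⟩
          · subst h
            rw [dv, Fin.insertNth_apply_same, mul_one]
          · subst h
            rw [dv, Fin.insertNth_apply_succAbove]
            field_simp
        have h3 := eval_smul_hom N H hH (t i₀) (dv i₀ (fun j => t (i₀.succAbove j) / t i₀))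
        rw [← h2, ← hev, hq0, map_zero, mul_zero] at h3
        rw [h3, mul_zero]
    rcases mul_eq_zero.1 h1 with h | h
    · exact MvPolynomial.X_ne_zero i₀ h
    · exact h0 h
  have hdeg : q.totalDegree ≤ N := by
    rw [hq, MvPolynomial.aeval_def, MvPolynomial.eval₂_eq']
    refine MvPolynomial.totalDegree_finsetSum_le fun n hn => ?_
    refine (MvPolynomial.totalDegree_mul _ _).trans ?_
    have h1 : (algebraMap ℂ (MvPolynomial (Fin m) ℂ) (MvPolynomial.coeff n H)).totalDegree = 0 :=
      MvPolynomial.totalDegree_C _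
    rw [h1, zero_add]
    refine (MvPolynomial.totalDegree_finset_prod _ _).trans ?_
    rw [← hH n hn, Finsupp.degree_eq_sum]
    refine Finset.sum_le_sum fun i _ => ?_
    refine (MvPolynomial.totalDegree_pow _ _).trans ?_
    have h2 : (g i).totalDegree ≤ 1 := by
      rcases Fin.eq_self_or_eq_succAbove i₀ i with h | ⟨j, h⟩
      · subst h
        rw [hg, Fin.insertNth_apply_same, MvPolynomial.totalDegree_one]
        exact Nat.zero_le _
      · subst h
        rw [hg, Fin.insertNth_apply_succAbove, MvPolynomial.totalDegree_X]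
    calc n i * (g i).totalDegree ≤ n i * 1 := Nat.mul_le_mul_left _ h2
      _ = n i := mul_one _
  by_contra hcon
  push Not at hcon
  apply hq0
  have hinj : Function.Injective (fun k : ℕ => (k : ℂ)) := Nat.cast_injective
  refine MvPolynomial.eq_zero_of_eval_zero_at_prod_finset q
    (fun _ => (Finset.range (N + 1)).image (fun k : ℕ => (k : ℂ))) ?_ ?_
  · intro j
    rw [Finset.card_image_of_injective _ hinj, Finset.card_range]
    exact Nat.lt_succ_of_le ((MvPolynomial.degreeOf_le_totalDegree q j).trans hdeg)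
  · intro x hx
    have h1 : ∀ j, ∃ k : ℕ, k ≤ N ∧ (k : ℂ) = x j := by
      intro j
      obtain ⟨k, hk, hk2⟩ := Finset.mem_image.1 (hx j)
      exact ⟨k, Nat.lt_succ_iff.1 (Finset.mem_range.1 hk), hk2⟩
    choose a ha hax using h1
    have h2 := hcon a ha
    rw [show (fun j => ((a j : ℕ) : ℂ)) = x from funext hax] at h2
    rw [hev, h2]

theorem dir : DirStmt := by
  classical
  intro m N P i₀ hP hN
  set H := MvPolynomial.homogeneousComponent N P with hH
  have hHs : ∀ n ∈ H.support, n.degree = N := by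
    intro n hn
    rw [hH, MvPolynomial.support_homogeneousComponent] at hn
    exact (Finset.mem_filter.1 hn).2
  have hH0 : H ≠ 0 := by
    obtain ⟨d, hd, hd2⟩ := Finset.exists_mem_eq_sup P.support
      (MvPolynomial.support_nonempty.2 hP) (fun s => s.sum fun _ e => e)
    intro h
    have h1 : MvPolynomial.coeff d H = 0 := by rw [h, MvPolynomial.coeff_zero]
    rw [hH, MvPolynomial.coeff_homogeneousComponent] at h1
    have h2 : d.degree = N := by
      rw [← hN, MvPolynomial.totalDegree, hd2]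
      rfl
    rw [if_pos h2] at h1
    exact (MvPolynomial.mem_support_iff.1 hd) h1
  obtain ⟨a, ha, hl⟩ := exists_dir i₀ N H hHs hH0
  refine ⟨a, ha, _, hl, ?_⟩
  have e := MvPolynomial.sum_homogeneousComponent P
  rw [hN, Finset.sum_range_succ] at e
  conv_lhs => rw [← e]
  rw [map_add, Polynomial.coeff_add, map_sum, Polynomial.finsetSum_coeff, (sub_hom i₀ a N H hHs).2]
  have hz : ∑ i ∈ Finset.range N,
      (sub i₀ a (MvPolynomial.homogeneousComponent i P)).coeff N = 0 := by
    refine Finset.sum_eq_zero fun i hi => ?_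
    refine Polynomial.coeff_eq_zero_of_natDegree_lt ?_
    refine lt_of_le_of_lt (sub_hom i₀ a i _ ?_).1 (Finset.mem_range.1 hi)
    intro n hn
    rw [MvPolynomial.support_homogeneousComponent] at hn
    exact (Finset.mem_filter.1 hn).2
  rw [hz, zero_add]

end Pool.Agent.TTC.H15Dir
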